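import Pool.Agent.H7.GT.Stmts

/-!
# Row XGR of the board `gt7`: more than `r` vertices missing
-/

set_option autoImplicit false

open Finset

namespace Pool.GT7

open Pool.Agent.H23.KT Pool.Agent.H46.KW Pool.KQ

theorem XGR_pow1 {A e : ℝ} (N : ℕ) (hA : 1 ≤ A) (he : 0 < e) (he1 : e ≤ 1)
    (h : 2 * (N : ℝ) ≤ e * A) : (A + 1) ^ N ≤ (1 + e) * A ^ N := by
  have hA1 : 0 < A + 1 := by linarith
  have h1 : (1 : ℝ) + N * (-(1 / (A + 1))) ≤ (1 + -(1 / (A + 1))) ^ N := by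
    apply one_add_mul_le_pow
    have : 1 / (A + 1) ≤ 1 := by
      rw [div_le_one hA1]
      linarith
    linarith
  have h2 : (1 + -(1 / (A + 1))) = A / (A + 1) := by
    field_simp
    ring
  have h3 : (N : ℝ) * (1 / (A + 1)) ≤ e / 2 := by
    rw [mul_one_div, div_le_div_iff₀ hA1 two_pos]
    nlinarith
  rw [h2, div_pow] at h1
  have h4 : 0 < (A + 1) ^ N := by positivity
  have h5 : (1 - e / 2) * (A + 1) ^ N ≤ A ^ N := by
    rw [← le_div_iff₀ h4]
    linarith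
  have h6 : (1 + e) * ((1 - e / 2) * (A + 1) ^ N) ≤ (1 + e) * A ^ N :=
    mul_le_mul_of_nonneg_left h5 (by linarith)
  have h7 : (A + 1) ^ N ≤ (1 + e) * ((1 - e / 2) * (A + 1) ^ N) := by
    have h8 : 1 ≤ (1 + e) * (1 - e / 2) := by nlinarith
    calc (A + 1) ^ N = 1 * (A + 1) ^ N := (one_mul _).symm
      _ ≤ ((1 + e) * (1 - e / 2)) * (A + 1) ^ N := mul_le_mul_of_nonneg_right h8 h4.le
      _ = _ := by ring
  exact h7.trans h6

theorem XGR_pow2 {A e : ℝ} (N : ℕ) (hA : 0 ≤ A) (he1 : e ≤ 1) :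
    (1 - N * e) * A ^ N ≤ ((1 - e) * A) ^ N := by
  have h1 : (1 : ℝ) + N * (-e) ≤ (1 + -e) ^ N := one_add_mul_le_pow (by linarith) N
  rw [mul_pow]
  apply mul_le_mul_of_nonneg_right _ (by positivity)
  have h2 : (1 + -e) ^ N = (1 - e) ^ N := by rw [← sub_eq_add_neg]
  rw [h2] at h1
  linarith

theorem XGR_pow3 {A e : ℝ} (N : ℕ) (hA : 0 ≤ A) (he : 0 < e) (he1 : e ≤ 1)
    (h : 2 * (N * e) ≤ 1) : ((1 + e) * A) ^ N ≤ (1 + 2 * (N * e)) * A ^ N := by
  rw [mul_pow]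
  apply mul_le_mul_of_nonneg_right _ (by positivity)
  have h1 : (1 : ℝ) + N * (-e) ≤ (1 + -e) ^ N := one_add_mul_le_pow (by linarith) N
  have h2 : (0 : ℝ) < 1 - N * e := by linarith
  have h3 : 0 < (1 + e) ^ N := by positivity
  have h4 : (1 + e) ^ N * (1 + -e) ^ N ≤ 1 := by
    rw [← mul_pow]
    apply pow_le_one₀
    · nlinarith
    · nlinarith
  have h5 : (1 + e) ^ N * (1 - N * e) ≤ 1 := by
    refine le_trans (mul_le_mul_of_nonneg_left ?_ h3.le) h4
    linarith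
  have h6 : (1 : ℝ) ≤ (1 + 2 * (N * e)) * (1 - N * e) := by
    have h7 : (0 : ℝ) ≤ N * e := by positivity
    nlinarith
  exact le_of_mul_le_mul_right (h5.trans h6) h2

theorem XGR_be {b e η : ℝ} (hb3 : 3 ≤ b) (he : 0 < e) (h : 40 * b ^ 2 * e ≤ η) (hη1 : η ≤ 1) :
    40 * (b * e) ≤ 1 / 3 ∧ e ≤ b * e / 3 ∧ e ≤ 1 ∧ (1 + 2 * (b * e)) * (1 + e) ≤ 1 + 4 * (b * e) := by
  have h0 : 0 < b * e := by positivity
  have h1 : 3 * (b * e) ≤ b * (b * e) := mul_le_mul_of_nonneg_right hb3 h0.le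
  have h2 : b * (b * e) = b ^ 2 * e := by ring
  have h3 : 3 * e ≤ b * e := mul_le_mul_of_nonneg_right hb3 he.le
  have h4 : 40 * (b * e) ≤ 1 / 3 := by linarith
  have h5 : e ≤ 1 := by linarith
  have h6 : b * e * e ≤ b * e * 1 := mul_le_mul_of_nonneg_left h5 h0.le
  refine ⟨h4, by linarith, h5, ?_⟩
  have h7 : (1 + 2 * (b * e)) * (1 + e) = 1 + e + 2 * (b * e) + 2 * (b * e * e) := by ring
  rw [h7]
  have h8 : b * e * e ≤ b * e / 2 := by
    have h9 : e ≤ 1 / 2 := by linarith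
    have := mul_le_mul_of_nonneg_left h9 h0.le
    linarith
  linarith

theorem XGR_fin {b e x r η : ℝ} (hb3 : 3 ≤ b) (he : 0 < e) (hη : 0 < η)
    (h : 40 * b ^ 2 * e ≤ η) (hxr : r + 1 ≤ x) (hr0 : 0 ≤ r) (hrb : r + 1 ≤ b) :
    4 * (b * e) + (1 + 4 * (b * e)) * (x - η / 2 * (x - r)) + η / 40 ≤ x * (1 - b * e) := by
  obtain ⟨d, hd⟩ : ∃ d : ℝ, d = x - r := ⟨_, rfl⟩
  have hd1 : 1 ≤ d := by linarith
  have hx : x = r + d := by linarith
  have hbe0 : 0 < b * e := by positivity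
  have h1 : r * 1 ≤ r * d := mul_le_mul_of_nonneg_left hd1 hr0
  have h2 : (r + 1) * d ≤ b * d := mul_le_mul_of_nonneg_right hrb (by linarith)
  have hxb : x ≤ b * d := by
    have : (r + 1) * d = r * d + d := by ring
    linarith
  have h5 : (b * e) * x ≤ (b * e) * (b * d) := mul_le_mul_of_nonneg_left hxb hbe0.le
  have h6 : (b * e) * (b * d) = b ^ 2 * e * d := by ring
  have h7 : (40 * b ^ 2 * e) * d ≤ η * d := mul_le_mul_of_nonneg_right h (by linarith)
  have h8 : 3 * (b * e) ≤ b * (b * e) := mul_le_mul_of_nonneg_right hb3 hbe0.le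
  have h9 : b * (b * e) * 1 ≤ b * (b * e) * d := mul_le_mul_of_nonneg_left hd1 (by positivity)
  have h10 : b * (b * e) * d = b ^ 2 * e * d := by ring
  have h11 : η * 1 ≤ η * d := mul_le_mul_of_nonneg_left hd1 hη.le
  have h12 : 0 ≤ (b * e) * (η * d) := by positivity
  have h13 : (1 + 4 * (b * e)) * (x - η / 2 * (x - r)) =
      x - η * d / 2 + 4 * ((b * e) * x) - 2 * ((b * e) * (η * d)) := by
    rw [← hd]
    ring
  rw [h13]
  have h14 : x * (1 - b * e) = x - (b * e) * x := by ring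
  rw [h14]
  linarith

theorem XGR_thm (hSWL : SWLStmt) (hEST : ESTStmt) (hLMB : LMBStmt) : XGRStmt := by
  intro p w r hP η hη hη1
  obtain ⟨K', hK', hL⟩ := hLMB p w r hP
  obtain ⟨b, hb⟩ : ∃ b : ℝ, b = (p : ℝ) + 3 := ⟨_, rfl⟩
  have hp0 : (0 : ℝ) ≤ p := Nat.cast_nonneg p
  have hb3 : 3 ≤ b := by linarith
  have hb0 : 0 < b := by linarith
  have hbN : ((p + 3 : ℕ) : ℝ) = b := by rw [hb]; push_cast; ring
  refine ⟨η / (40 * b ^ 2), by positivity, fun e K he hee => ?_⟩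
  have hee' : 40 * b ^ 2 * e ≤ η := by
    rw [le_div_iff₀ (by positivity)] at hee
    linarith
  obtain ⟨hbe, heb, he1, hbe4⟩ := XGR_be hb3 he hee' hη1
  obtain ⟨a₀, ha₀⟩ := exists_nat_ge (1 + K' / e + 2 * b / e + 40 * |K| / η)
  refine ⟨a₀, fun a ha x hx n hn hni => ?_⟩
  obtain ⟨A, hA⟩ : ∃ A : ℝ, A = (a : ℝ) := ⟨_, rfl⟩
  have hAa : (1 + K' / e + 2 * b / e + 40 * |K| / η) ≤ A := by
    rw [hA]
    exact ha₀.trans (by exact_mod_cast ha)
  have hq1 : 0 < K' / e := by positivity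
  have hq2 : 0 < 2 * b / e := by positivity
  have hq3 : 0 ≤ 40 * |K| / η := by positivity
  have hA1 : 1 ≤ A := by linarith
  have hA0 : 0 < A := by linarith
  have hAK' : K' ≤ e * A := by
    have h1 : K' / e ≤ A := by linarith
    rw [div_le_iff₀ he] at h1
    linarith
  have hAb : 2 * b ≤ e * A := by
    have h1 : 2 * b / e ≤ A := by linarith
    rw [div_le_iff₀ he] at h1
    linarith
  have hAK : 40 * |K| ≤ η * A := by
    have h1 : 40 * |K| / η ≤ A := by linarith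
    rw [div_le_iff₀ hη] at h1
    linarith
  have ha1 : 1 ≤ a := by
    rw [hA] at hA1
    exact_mod_cast hA1
  obtain ⟨-, hL2, hL3, hL4, hL5, -⟩ := hL a ha1
  rw [← hA] at hL2 ⊢
  obtain ⟨c₁, hc₁⟩ : ∃ c₁ : ℝ, c₁ = ((p + 2).choose (w + 1) : ℝ) := ⟨_, rfl⟩
  have hc₁1 : 1 ≤ c₁ := by
    rw [hc₁]
    have h1 : 0 < (p + 2).choose (w + 1) := Nat.choose_pos (by have := hP.wp; omega)
    exact_mod_cast h1
  rw [← hc₁] at hL2
  obtain ⟨M, hM⟩ : ∃ M : ℝ, M = c₁ * A ^ (w + 1) := ⟨_, rfl⟩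
  have hM0 : 0 < M := by rw [hM]; positivity
  rw [← hM] at hL2
  obtain ⟨B, hB⟩ : ∃ B : ℝ, B = A ^ (p + 3) := ⟨_, rfl⟩
  have hB0 : 0 < B := by rw [hB]; positivity
  rw [← hB] at hL2
  have hLB : Lm p w r a * B ≤ (1 + e) * M := by
    refine hL2.trans (mul_le_mul_of_nonneg_right ?_ hM0.le)
    have h1 : K' / A ≤ e := by
      rw [div_le_iff₀ hA0]
      exact hAK'
    linarith
  -- the product
  have hprod_lo : ((1 - e) * A) ^ (p + 3) ≤ ∏ i, (n i : ℝ) := by
    have h1 : ∏ _i : Fin (p + 3), ((1 - e) * A) ≤ ∏ i, (n i : ℝ) := by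
      apply prod_le_prod
      · intro i _
        have : 0 ≤ 1 - e := by linarith
        positivity
      · intro i _
        have := (hni i).1
        rw [hA]
        exact this
    simpa using h1
  have hprod_hi : ∏ i, (n i : ℝ) ≤ ((1 + e) * A) ^ (p + 3) := by
    have h1 : ∏ i, (n i : ℝ) ≤ ∏ _i : Fin (p + 3), ((1 + e) * A) := by
      apply prod_le_prod
      · intro i _
        positivity
      · intro i _
        have := (hni i).2
        rw [hA]
        exact this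
    simpa using h1
  have h1 : (A + 1) ^ (p + 3) ≤ (1 + e) * B := by
    rw [hB]
    exact XGR_pow1 (p + 3) hA1 he he1 (by rw [hbN]; exact hAb)
  have h2 : (1 - b * e) * B ≤ ((1 - e) * A) ^ (p + 3) := by
    have := XGR_pow2 (A := A) (p + 3) hA0.le he1
    rw [hbN, ← hB] at this
    exact this
  have h3 : ((1 + e) * A) ^ (p + 3) ≤ (1 + 2 * (b * e)) * B := by
    have := XGR_pow3 (A := A) (p + 3) hA0.le he he1 (by rw [hbN]; linarith)
    rw [hbN, ← hB] at this
    exact this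
  have h4 : A ^ (p + 3 - r) * (A + 1) ^ r ≤ (A + 1) ^ (p + 3) := by
    have h5 : p + 3 = (p + 3 - r) + r := by have := hP.rp; omega
    calc A ^ (p + 3 - r) * (A + 1) ^ r ≤ (A + 1) ^ (p + 3 - r) * (A + 1) ^ r := by
          apply mul_le_mul_of_nonneg_right _ (by positivity)
          exact pow_le_pow_left₀ hA0.le (by linarith) _
      _ = (A + 1) ^ (p + 3) := by rw [← pow_add, ← h5]
  -- first term
  have hbe0 : 0 < b * e := by positivity
  have ht1 : lam p w r a * (A ^ (p + 3 - r) * (A + 1) ^ r - ∏ i, (n i : ℝ)) ≤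
      4 * (b * e) * M := by
    have h5 : A ^ (p + 3 - r) * (A + 1) ^ r - ∏ i, (n i : ℝ) ≤ 2 * (b * e) * B := by
      have h6 : (1 + e) * B - (1 - b * e) * B ≤ 2 * (b * e) * B := by
        have h7 : e * B ≤ b * e * B := by
          apply mul_le_mul_of_nonneg_right _ hB0.le
          linarith
        linarith
      linarith
    calc lam p w r a * (A ^ (p + 3 - r) * (A + 1) ^ r - ∏ i, (n i : ℝ))
        ≤ lam p w r a * (2 * (b * e) * B) := mul_le_mul_of_nonneg_left h5 hL3.le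
      _ ≤ Lm p w r a * (2 * (b * e) * B) := mul_le_mul_of_nonneg_right hL5 (by positivity)
      _ = 2 * (b * e) * (Lm p w r a * B) := by ring
      _ ≤ 2 * (b * e) * ((1 + e) * M) := mul_le_mul_of_nonneg_left hLB (by positivity)
      _ ≤ 2 * (b * e) * (2 * M) := by
          apply mul_le_mul_of_nonneg_left _ (by positivity)
          apply mul_le_mul_of_nonneg_right _ hM0.le
          linarith
      _ = 4 * (b * e) * M := by ring
  -- second term
  have hxr : (r : ℝ) + 1 ≤ x := by exact_mod_cast hx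
  have hr0 : (0 : ℝ) ≤ r := Nat.cast_nonneg r
  obtain ⟨Y, hY⟩ : ∃ Y : ℝ, Y = (x : ℝ) - η / 2 * ((x : ℝ) - r) := ⟨_, rfl⟩
  have hYx : Y ≤ x := by
    rw [hY]
    have : 0 ≤ η / 2 * ((x : ℝ) - r) := mul_nonneg (by linarith) (by linarith)
    linarith
  have hY0 : 0 ≤ Y := by
    rw [hY]
    have h5 : η / 2 * ((x : ℝ) - r) ≤ 1 * ((x : ℝ) - r) :=
      mul_le_mul_of_nonneg_right (by linarith) (by linarith)
    linarith
  have ht2 : Lm p w r a * Y * ∏ i, (n i : ℝ) ≤ (1 + 4 * (b * e)) * Y * M := by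
    have h5 : ∏ i, (n i : ℝ) ≤ (1 + 2 * (b * e)) * B := hprod_hi.trans h3
    calc Lm p w r a * Y * ∏ i, (n i : ℝ) ≤ Lm p w r a * Y * ((1 + 2 * (b * e)) * B) :=
          mul_le_mul_of_nonneg_left h5 (mul_nonneg hL4.le hY0)
      _ = (1 + 2 * (b * e)) * Y * (Lm p w r a * B) := by ring
      _ ≤ (1 + 2 * (b * e)) * Y * ((1 + e) * M) :=
          mul_le_mul_of_nonneg_left hLB (mul_nonneg (by positivity) hY0)
      _ = ((1 + 2 * (b * e)) * (1 + e)) * (Y * M) := by ring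
      _ ≤ (1 + 4 * (b * e)) * (Y * M) := by
          exact mul_le_mul_of_nonneg_right hbe4 (mul_nonneg hY0 hM0.le)
      _ = _ := by ring
  -- the right side
  obtain ⟨-, -, -, hE4⟩ := hEST
  obtain ⟨lo, hlo⟩ : ∃ lo : ℕ, lo = ⌈(1 - e) * A⌉₊ := ⟨_, rfl⟩
  have hlon : ∀ l, lo ≤ n l := by
    intro l
    rw [hlo]
    apply Nat.ceil_le.2
    rw [hA]
    exact (hni l).1
  have hloA : (1 - e) * A ≤ lo := by
    rw [hlo]
    exact Nat.le_ceil _
  have hE := hE4 p w lo x n 0 hlon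
  set n' : Fin (p + 3) → ℕ := Function.update n 0 (n 0 + x) with hn'
  have hsum : ∑ i, n' i = (p + 3) * a + r := by
    rw [← hn, Fin.sum_univ_succ, Fin.sum_univ_succ n]
    have h5 : n' 0 = n 0 + x := by rw [hn', Function.update_self]
    have h6 : ∀ i : Fin (p + 2), n' i.succ = n i.succ := by
      intro i
      rw [hn', Function.update_of_ne (Fin.succ_ne_zero i)]
    rw [h5, sum_congr rfl (fun i _ => h6 i)]
    ring
  have hS := hSWL p w a r 0 ((p + 3) * a + r + 1) 0 (by have := hP.rp; omega) (Nat.zero_le _)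
    (by
      have h5 : 1 * a ≤ (p + 3) * a := Nat.mul_le_mul_right a (by omega)
      omega) (by rw [neg_zero, zero_mul]; positivity) n' hsum (fun i => ⟨Nat.zero_le _, by
      have h5 : n' i ≤ ∑ j, n' j := single_le_sum (fun j _ => Nat.zero_le _) (mem_univ i)
      omega⟩)
  rw [zero_mul, zero_mul, add_zero, add_zero] at hS
  have hE' : (es n (w + 2) : ℝ) + x * (c₁ * (lo : ℝ) ^ (w + 1)) ≤ es n' (w + 2) := by
    rw [hc₁]
    exact_mod_cast hE
  have hw : ((w + 1 : ℕ) : ℝ) ≤ b := by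
    rw [hb]
    have h5 : (w : ℝ) ≤ p := by exact_mod_cast hP.wp
    push_cast
    linarith
  have hlo2 : (1 - b * e) * M ≤ c₁ * (lo : ℝ) ^ (w + 1) := by
    have h5 := XGR_pow2 (A := A) (w + 1) hA0.le he1
    have h6 : ((1 - e) * A) ^ (w + 1) ≤ (lo : ℝ) ^ (w + 1) :=
      pow_le_pow_left₀ (mul_nonneg (by linarith) hA0.le) hloA _
    have h7 : (1 - b * e) * A ^ (w + 1) ≤ (1 - ((w + 1 : ℕ) : ℝ) * e) * A ^ (w + 1) := by
      apply mul_le_mul_of_nonneg_right _ (by positivity)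
      have := mul_le_mul_of_nonneg_right hw he.le
      linarith
    calc (1 - b * e) * M = c₁ * ((1 - b * e) * A ^ (w + 1)) := by rw [hM]; ring
      _ ≤ c₁ * (lo : ℝ) ^ (w + 1) :=
          mul_le_mul_of_nonneg_left (h7.trans (h5.trans h6)) (by linarith)
  have hx0 : (0 : ℝ) ≤ x := by linarith
  have hR : x * ((1 - b * e) * M) ≤ (TT (p + 3) (w + 2) a r : ℝ) - es n (w + 2) := by
    have h5 := mul_le_mul_of_nonneg_left hlo2 hx0
    linarith
  -- the term with `K`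
  have htK : K * A ^ w ≤ η / 40 * M := by
    have h5 : K ≤ η / 40 * (c₁ * A) := by
      have h6 := le_abs_self K
      have h7 : η * A ≤ η * (c₁ * A) := by
        apply mul_le_mul_of_nonneg_left _ hη.le
        have h8 := mul_le_mul_of_nonneg_right hc₁1 hA0.le
        linarith
      linarith
    calc K * A ^ w ≤ η / 40 * (c₁ * A) * A ^ w := mul_le_mul_of_nonneg_right h5 (by positivity)
      _ = η / 40 * M := by rw [hM, pow_succ]; ring
  -- conclusion
  have hfin : 4 * (b * e) + (1 + 4 * (b * e)) * Y + η / 40 ≤ x * (1 - b * e) := by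
    rw [hY]
    have h5 : (r : ℝ) ≤ p := by exact_mod_cast hP.rp
    exact XGR_fin hb3 he hη hee' hxr hr0 (by linarith)
  have hfin' : 4 * (b * e) * M + (1 + 4 * (b * e)) * Y * M + η / 40 * M ≤
      x * ((1 - b * e) * M) := by
    have := mul_le_mul_of_nonneg_right hfin hM0.le
    linarith
  rw [← hY]
  linarith

end Pool.GT7
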